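import Pool.Agent.V1143.Ord.Real

/-!
# Primes which are ordinary for all summands of a motive at once

`K₀` is a number field and `M` a motive over `K₀` which realises the intersection cohomology `H_ℓ`.
Over a finite extension `K` of `K₀` it is a direct sum of pieces `A i` with multiplication by totally
real or CM fields `(A i).E`, with connected `ℓ`-adic monodromy groups over `K` for one prime `ℓ`.  The
summands `R' = e M`, and the summands of all powers of `M`, correspond to certain vectors `m'` of
multiplicities of the pieces `A i`.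

Theorem.  There is one set `T` of primes of `K₀`, of lower density at least
`admProportion A / [K : K₀]`, at which all strictly compatible systems `R'` which over `K` are sums of
copies of the `A i`, with any multiplicities `m'`, are ordinary: for all primes `ℓ'` different from the
residue characteristic `p` and all embeddings `τ` of the field of algebraic numbers into `ℚ̄_p` the
Newton polygon of `R' ℓ'` is the Hodge polygon.  Here `admProportion A` is the proportion of the
elements of the finite Galois group of the fields of multiplications which satisfy the orbit condition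
for all `i`.  If the defects at all vertices are at most `2` then the places of `K` above `T` have
density one, and the lower density of `T` is at least `1 / [K : K₀]`.
-/

set_option autoImplicit false

namespace Pool.Agent.Results.MP_0dad22_ag.AllSummandsAtOnce

open NumberField IsDedekindDomain Polynomial Filter Topology
open Pool.Agent.W401.Cheb Pool.Agent.W528.Ord Pool.Agent.V1143.Ord
open Pool.Agent.W528.Ord.MultSystem (IsDeg1)

theorem result (K₀ K : Type) [Field K₀] [NumberField K₀] [Field K] [NumberField K] [Algebra K₀ K]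
    (ℓ : ℕ) [Fact ℓ.Prime] {ι : Type} [Fintype ι]
    -- the pieces `A i` over `K`
    (A : ι → MotSystem K ℓ) (χ : GK K →* (PadicAlgCl ℓ)ˣ) (S : Finset ℕ)
    (hA : ∀ i, (A i).IsMotive χ S) :
    ∃ T : Set (HeightOneSpectrum (𝓞 K₀)),
      -- `T` has explicit lower density
      MotSystem.admProportion A / (Module.finrank K₀ K : ℝ) ≤ lowerDensity (fun v₀ => v₀ ∈ T) ∧
      -- it is at least `1 / [K : K₀]`, and of density one over `K`, if all defects are at most two
      ((∀ i (σ : (A i).E →+* AlgebraicClosure K) (k : ℕ), (A i).Vertex σ k → (A i).defect k ≤ 2) →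
        Tendsto (ratio fun v : HeightOneSpectrum (𝓞 K) => ∃ v₀ ∈ T,
          v.asIdeal.comap (algebraMap (𝓞 K₀) (𝓞 K)) = v₀.asIdeal) atTop (𝓝 1) ∧
        1 / (Module.finrank K₀ K : ℝ) ≤ lowerDensity (fun v₀ => v₀ ∈ T)) ∧
      -- all sums of the pieces are ordinary at all places of `T`
      ∀ (m' : ι → ℕ) (r : ℕ)
        (R' : ∀ (ℓ' : ℕ) [Fact ℓ'.Prime], GK K₀ →* Matrix.GeneralLinearGroup (Fin r) ℚ_[ℓ'])
        (F' : HeightOneSpectrum (𝓞 K₀) → ℤ[X]), StrictlyCompatible S R' F' →
        Decomposes A m' S F' → ∀ v₀ ∈ T, Ordinary R' (MotSystem.slopes A m') v₀ := by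
  have hdown : MotSystem.admProportion A / (Module.finrank K₀ K : ℝ) ≤
      lowerDensity (fun v₀ : HeightOneSpectrum (𝓞 K₀) => v₀ ∈ {v₀ : HeightOneSpectrum (𝓞 K₀) |
        ∃ v : HeightOneSpectrum (𝓞 K), AdmPlace A S v ∧
          v.asIdeal.comap (algebraMap (𝓞 K₀) (𝓞 K)) = v₀.asIdeal}) :=
    lower_down χ hA _ (fun v v₀ hv h0 => ⟨v, hv, h0⟩)
  refine ⟨{v₀ | ∃ v : HeightOneSpectrum (𝓞 K), AdmPlace A S v ∧
    v.asIdeal.comap (algebraMap (𝓞 K₀) (𝓞 K)) = v₀.asIdeal}, hdown, fun hdef => ⟨?_, ?_⟩, ?_⟩
  · apply ratio_up χ hA hdef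
    intro v hv
    obtain ⟨v₀, h0, -⟩ := exists_under (K₀ := K₀) v hv.1.1.1
    exact ⟨v₀, ⟨v, hv, h0⟩, h0⟩
  · rw [prop_one (K := K) hdef] at hdown
    exact hdown
  · rintro m' r R' F' hR hF v₀ ⟨v, hv, h0⟩
    exact ordinary_under χ hA hv h0 m' R' F' hR hF

end Pool.Agent.Results.MP_0dad22_ag.AllSummandsAtOnce
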